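import Mathlib

/-! # Density of the translates hit by some prime -/

namespace Pool.Agent.Helper20.ZT
open Finset Filter

/-! ## Counting residue classes in a box -/

theorem card_Icc_zmod_le (M : ℕ) (hM : 0 < M) (a b : ℤ) (r : ZMod M) (hab : a ≤ b + 1) :
    ((((Icc a b).filter (fun x : ℤ => (x : ZMod M) = r)).card : ℕ) : ℝ) ≤
      ((b : ℝ) + 1 - a) / M + 1 := by
  obtain ⟨v, rfl⟩ := ZMod.intCast_surjective r
  have h1 : (Icc a b).filter (fun x : ℤ => (x : ZMod M) = (v : ZMod M)) =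
      (Ioc (a - 1) b).filter (fun x => x ≡ v [ZMOD (M : ℤ)]) := by
    ext x
    simp only [mem_filter, mem_Icc, mem_Ioc, ZMod.intCast_eq_intCast_iff]
    constructor
    · rintro ⟨⟨h1, h2⟩, h3⟩
      exact ⟨⟨by omega, h2⟩, h3⟩
    · rintro ⟨⟨h1, h2⟩, h3⟩
      exact ⟨⟨by omega, h2⟩, h3⟩
  rw [h1]
  have hM' : (0 : ℤ) < (M : ℤ) := by exact_mod_cast hM
  have h2 := Int.Ioc_filter_modEq_card (a - 1) b hM' v
  have hMq : (0 : ℚ) < (M : ℚ) := by exact_mod_cast hM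
  have h3 : (((#{x ∈ Ioc (a - 1) b | x ≡ v [ZMOD (M : ℤ)]} : ℕ) : ℤ) : ℚ) ≤
      ((b : ℚ) + 1 - a) / M + 1 := by
    rw [h2]
    rw [Int.cast_max]
    apply max_le
    · push_cast
      have e1 := Int.floor_le (((b : ℚ) - v) / (M : ℚ))
      have e2 := Int.lt_floor_add_one ((((a - 1 : ℤ) : ℚ) - v) / (M : ℚ))
      have e3 : ((b : ℚ) + 1 - a) / M = ((b : ℚ) - v) / M - (((a - 1 : ℤ) : ℚ) - v) / M := by
        push_cast
        field_simp
        ring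
      push_cast at e2 e3 ⊢
      linarith
    · have : (0 : ℚ) ≤ (b : ℚ) + 1 - a := by
        have : (a : ℚ) ≤ b + 1 := by exact_mod_cast hab
        linarith
      have := div_nonneg this hMq.le
      push_cast
      linarith
  exact_mod_cast h3

theorem box_count {n : ℕ} (M₃ M₂ : ℕ) (h₃ : 0 < M₃) (h₂ : 0 < M₂)
    (R : Finset (ZMod M₃ × (Fin n → ZMod M₂))) (H : ℕ) [DecidablePred fun v : ℤ × (Fin n → ℤ) =>
      (((v.1 : ZMod M₃), (fun i => (v.2 i : ZMod M₂))) : ZMod M₃ × (Fin n → ZMod M₂)) ∈ R] :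
    ((((Icc (1 : ℤ) H) ×ˢ (Fintype.piFinset fun _ : Fin n => Icc (-(H : ℤ)) H)).filter
        (fun v => (((v.1 : ZMod M₃), (fun i => (v.2 i : ZMod M₂))) :
          ZMod M₃ × (Fin n → ZMod M₂)) ∈ R)).card : ℝ) ≤
     R.card * (((H : ℝ) / M₃ + 1) * ((2 * H + 1 : ℝ) / M₂ + 1) ^ n) := by
  classical
  have key := Finset.card_eq_sum_card_fiberwise
    (s := ((Icc (1 : ℤ) H) ×ˢ (Fintype.piFinset fun _ : Fin n => Icc (-(H : ℤ)) H)).filter
        (fun v => (((v.1 : ZMod M₃), (fun i => (v.2 i : ZMod M₂))) :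
          ZMod M₃ × (Fin n → ZMod M₂)) ∈ R)) (t := R)
    (f := fun v : ℤ × (Fin n → ℤ) => (((v.1 : ZMod M₃), (fun i => (v.2 i : ZMod M₂))) :
          ZMod M₃ × (Fin n → ZMod M₂))) (by
      intro x hx
      have := (mem_filter.1 (Finset.mem_coe.1 hx)).2
      exact Finset.mem_coe.2 this)
  rw [key, Nat.cast_sum]
  have hle : ∀ r ∈ R, ((#{a ∈ ((Icc (1 : ℤ) H) ×ˢ
      (Fintype.piFinset fun _ : Fin n => Icc (-(H : ℤ)) H)).filter
        (fun v => (((v.1 : ZMod M₃), (fun i => (v.2 i : ZMod M₂))) :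
          ZMod M₃ × (Fin n → ZMod M₂)) ∈ R) |
        (((a.1 : ZMod M₃), (fun i => (a.2 i : ZMod M₂))) :
          ZMod M₃ × (Fin n → ZMod M₂)) = r} : ℕ) : ℝ) ≤
      ((H : ℝ) / M₃ + 1) * ((2 * H + 1 : ℝ) / M₂ + 1) ^ n := by
    intro r _
    have hsub : {a ∈ ((Icc (1 : ℤ) H) ×ˢ
      (Fintype.piFinset fun _ : Fin n => Icc (-(H : ℤ)) H)).filter
        (fun v => (((v.1 : ZMod M₃), (fun i => (v.2 i : ZMod M₂))) :
          ZMod M₃ × (Fin n → ZMod M₂)) ∈ R) |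
        (((a.1 : ZMod M₃), (fun i => (a.2 i : ZMod M₂))) :
          ZMod M₃ × (Fin n → ZMod M₂)) = r} ⊆
        ((Icc (1 : ℤ) H).filter (fun x : ℤ => (x : ZMod M₃) = r.1)) ×ˢ
        (Fintype.piFinset fun i : Fin n => (Icc (-(H : ℤ)) H).filter
          (fun x : ℤ => (x : ZMod M₂) = r.2 i)) := by
      intro a ha
      rw [mem_filter, mem_filter, mem_product, Fintype.mem_piFinset] at ha
      rw [mem_product, Fintype.mem_piFinset, mem_filter]
      refine ⟨⟨ha.1.1.1, ?_⟩, fun i => ?_⟩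
      · rw [← ha.2]
      · rw [mem_filter]
        refine ⟨ha.1.1.2 i, ?_⟩
        rw [← ha.2]
    refine (Nat.cast_le.2 (card_le_card hsub)).trans ?_
    rw [card_product, Fintype.card_piFinset, Nat.cast_mul, Nat.cast_prod]
    have a1 := card_Icc_zmod_le M₃ h₃ 1 H r.1 (by omega)
    have a2 := fun i => card_Icc_zmod_le M₂ h₂ (-(H : ℤ)) H (r.2 i) (by omega)
    refine mul_le_mul (a1.trans (le_of_eq ?_)) ?_ (prod_nonneg fun i _ => Nat.cast_nonneg _)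
      (by positivity)
    · push_cast
      ring
    · calc ∏ i : Fin n, ((((Icc (-(H : ℤ)) H).filter
            (fun x : ℤ => (x : ZMod M₂) = r.2 i)).card : ℕ) : ℝ)
          ≤ ∏ _i : Fin n, ((2 * H + 1 : ℝ) / M₂ + 1) := by
            refine prod_le_prod (fun i _ => Nat.cast_nonneg _) fun i _ => (a2 i).trans ?_
            push_cast
            apply le_of_eq
            ring
        _ = _ := by rw [prod_const, card_univ, Fintype.card_fin]
  refine (sum_le_sum hle).trans (le_of_eq ?_)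
  rw [sum_const, nsmul_eq_mul]

/-! ## The local densities -/

/-- the residue classes hit at `p` -/
def EE {n : ℕ} (G : ℕ → Set (Fin n → ℤ)) (p : ℕ) : Set (ZMod (p ^ 3) × (Fin n → ZMod (p ^ 2))) :=
  {z | ∃ (q' : ℤ) (u : Fin n → ℤ), ¬ (p : ℤ) ∣ q' ∧ u ∈ G p ∧ z.1 = ((p * q' : ℤ) : ZMod (p ^ 3)) ∧
    ∀ i, z.2 i = ((q' * u i : ℤ) : ZMod (p ^ 2))}

theorem card_EE {n : ℕ} (G : ℕ → Set (Fin n → ℤ)) {p : ℕ} (hp : p.Prime)
    (hcnt : ((p : ℝ) ^ 2) ^ n / 2 ≤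
      (Set.ncard {u | (∀ i, 0 ≤ u i ∧ u i < (p : ℤ) ^ 2) ∧ u ∈ G p} : ℝ)) :
    (p : ℝ) ^ 3 * ((p : ℝ) ^ 2) ^ n * (1 / (4 * p)) ≤ ((EE G p).ncard : ℝ) := by
  classical
  have hp0 : 0 < p := hp.pos
  have : NeZero (p ^ 2) := ⟨by positivity⟩
  have : NeZero (p ^ 3) := ⟨by positivity⟩
  set G' : Finset (Fin n → ZMod (p ^ 2)) :=
    univ.filter (fun u => (fun i => ((u i).val : ℤ)) ∈ G p) with hG'
  have h1 : Set.ncard {u | (∀ i, 0 ≤ u i ∧ u i < (p : ℤ) ^ 2) ∧ u ∈ G p} ≤ G'.card := by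
    have hsub : {u | (∀ i, 0 ≤ u i ∧ u i < (p : ℤ) ^ 2) ∧ u ∈ G p} ⊆
        (fun u : Fin n → ZMod (p ^ 2) => (fun i => ((u i).val : ℤ))) '' (G' : Set _) := by
      rintro u ⟨hu1, hu2⟩
      have e : (fun i => (((u i : ℤ) : ZMod (p ^ 2)).val : ℤ)) = u := by
        funext i
        rw [ZMod.val_intCast]
        push_cast
        exact Int.emod_eq_of_lt (hu1 i).1 (hu1 i).2
      refine ⟨fun i => ((u i : ℤ) : ZMod (p ^ 2)), ?_, e⟩
      rw [Finset.mem_coe, hG', mem_filter]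
      refine ⟨mem_univ _, ?_⟩
      rw [e]
      exact hu2
    calc Set.ncard {u | (∀ i, 0 ≤ u i ∧ u i < (p : ℤ) ^ 2) ∧ u ∈ G p}
        ≤ Set.ncard ((fun u : Fin n → ZMod (p ^ 2) => (fun i => ((u i).val : ℤ))) ''
            (G' : Set _)) := Set.ncard_le_ncard hsub ((Finset.finite_toSet _).image _)
      _ ≤ Set.ncard (G' : Set (Fin n → ZMod (p ^ 2))) := Set.ncard_image_le (Finset.finite_toSet _)
      _ = G'.card := Set.ncard_coe_finset _
  -- the injection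
  set g : (ZMod (p ^ 2))ˣ × (Fin n → ZMod (p ^ 2)) → ZMod (p ^ 3) × (Fin n → ZMod (p ^ 2)) :=
    fun a => (((p * (a.1 : ZMod (p ^ 2)).val : ℕ) : ZMod (p ^ 3)), fun i => (a.1 : ZMod (p ^ 2)) * a.2 i)
    with hg
  have hinj : Function.Injective g := by
    rintro ⟨a, u⟩ ⟨b, v⟩ hab
    rw [hg] at hab
    simp only [Prod.mk.injEq] at hab
    obtain ⟨e1, e2⟩ := hab
    rw [ZMod.natCast_eq_natCast_iff'] at e1
    have lt1 : ∀ c : (ZMod (p ^ 2))ˣ, p * (c : ZMod (p ^ 2)).val < p ^ 3 := by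
      intro c
      have := ZMod.val_lt (c : ZMod (p ^ 2))
      calc p * (c : ZMod (p ^ 2)).val < p * p ^ 2 := by gcongr
        _ = p ^ 3 := by ring
    rw [Nat.mod_eq_of_lt (lt1 a), Nat.mod_eq_of_lt (lt1 b)] at e1
    have e3 := Nat.eq_of_mul_eq_mul_left hp0 e1
    have e4 : a = b := Units.ext (ZMod.val_injective _ e3)
    subst e4
    have e5 : u = v := by
      funext i
      have := congrFun e2 i
      exact (Units.mul_right_inj a).1 this
    rw [e5]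
  have h2 : ((univ : Finset (ZMod (p ^ 2))ˣ) ×ˢ G').card ≤ (EE G p).ncard := by
    rw [← Finset.card_image_of_injective _ hinj, ← Set.ncard_coe_finset]
    apply Set.ncard_le_ncard _ (Set.toFinite _)
    intro z hz
    rw [Finset.mem_coe, mem_image] at hz
    obtain ⟨⟨a, u⟩, hau, rfl⟩ := hz
    rw [mem_product, hG'] at hau
    have hu := (mem_filter.1 hau.2).2
    refine ⟨((a : ZMod (p ^ 2)).val : ℤ), fun i => ((u i).val : ℤ), ?_, hu, ?_, ?_⟩
    · intro hd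
      have hd' : p ∣ (a : ZMod (p ^ 2)).val := by exact_mod_cast hd
      have hc := ZMod.val_coe_unit_coprime a
      have : p ∣ 1 := by
        rw [← hc]
        exact Nat.dvd_gcd hd' (dvd_pow_self p (by norm_num))
      exact hp.one_lt.ne' (Nat.dvd_one.1 this)
    · simp only [hg]
      push_cast
      ring
    · intro i
      simp only [hg]
      push_cast
      rw [ZMod.natCast_zmod_val, ZMod.natCast_zmod_val]
  rw [card_product, card_univ, ZMod.card_units_eq_totient, Nat.totient_prime_pow hp (by norm_num)]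
    at h2
  have h3 : (((p ^ (2 - 1) * (p - 1)) * G'.card : ℕ) : ℝ) ≤ ((EE G p).ncard : ℝ) := by
    exact_mod_cast h2
  have h4 : ((p : ℝ) ^ 2) ^ n / 2 ≤ (G'.card : ℝ) := hcnt.trans (by exact_mod_cast h1)
  have h5 : (((p ^ (2 - 1) * (p - 1)) * G'.card : ℕ) : ℝ) = p * (p - 1) * G'.card := by
    rw [Nat.cast_mul, Nat.cast_mul, Nat.cast_pow, Nat.cast_sub hp.one_lt.le]
    norm_num
  rw [h5] at h3
  refine le_trans ?_ h3
  have hp2 : (2 : ℝ) ≤ p := by exact_mod_cast hp.two_le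
  have h6 : (p : ℝ) * (p - 1) * (((p : ℝ) ^ 2) ^ n / 2) ≤ p * (p - 1) * G'.card := by
    apply mul_le_mul_of_nonneg_left h4
    apply mul_nonneg <;> linarith
  refine le_trans ?_ h6
  have h7 : (p : ℝ) ^ 3 * ((p : ℝ) ^ 2) ^ n * (1 / (4 * p)) = p ^ 2 / 4 * ((p : ℝ) ^ 2) ^ n := by
    field_simp
  rw [h7]
  have h8 : (p : ℝ) * (p - 1) * (((p : ℝ) ^ 2) ^ n / 2) = p * (p - 1) / 2 * ((p : ℝ) ^ 2) ^ n := by
    ring
  rw [h8]
  apply mul_le_mul_of_nonneg_right _ (by positivity)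
  nlinarith

/-! ## The Chinese remainder theorem -/

/-- reduction at `p` -/
noncomputable def red {n : ℕ} {S : Finset ℕ} (p : S)
    (r : ZMod (∏ p : S, (p : ℕ) ^ 3) × (Fin n → ZMod (∏ p : S, (p : ℕ) ^ 2))) :
    ZMod ((p : ℕ) ^ 3) × (Fin n → ZMod ((p : ℕ) ^ 2)) :=
  (ZMod.castHom (dvd_prod_of_mem (fun p : S => (p : ℕ) ^ 3) (mem_univ p)) _ r.1,
    fun i => ZMod.castHom (dvd_prod_of_mem (fun p : S => (p : ℕ) ^ 2) (mem_univ p)) _ (r.2 i))

theorem red_injective {n : ℕ} {S : Finset ℕ} (hS : ∀ p ∈ S, p.Prime) :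
    Function.Injective (fun (r : ZMod (∏ p : S, (p : ℕ) ^ 3) ×
      (Fin n → ZMod (∏ p : S, (p : ℕ) ^ 2))) (p : S) => red p r) := by
  have hc : ∀ k : ℕ, Pairwise fun p q : S => Nat.Coprime ((p : ℕ) ^ k) ((q : ℕ) ^ k) := by
    intro k p q hpq
    apply Nat.Coprime.pow
    exact (Nat.coprime_primes (hS p p.2) (hS q q.2)).2 fun h => hpq (Subtype.ext h)
  rintro ⟨a, u⟩ ⟨b, v⟩ hab
  have h1 : a = b := by
    apply (ZMod.prodEquivPi (fun p : S => (p : ℕ) ^ 3) (hc 3)).injective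
    funext p
    rw [ZMod.prodEquivPi_apply, ZMod.prodEquivPi_apply]
    exact congrArg Prod.fst (congrFun hab p)
  have h2 : u = v := by
    funext i
    apply (ZMod.prodEquivPi (fun p : S => (p : ℕ) ^ 2) (hc 2)).injective
    funext p
    rw [ZMod.prodEquivPi_apply, ZMod.prodEquivPi_apply]
    exact congrFun (congrArg Prod.snd (congrFun hab p)) i
  rw [h1, h2]

theorem card_bad_le {n : ℕ} {S : Finset ℕ} (hS : ∀ p ∈ S, p.Prime) (G : ℕ → Set (Fin n → ℤ))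
    (hcnt : ∀ p ∈ S, ((p : ℝ) ^ 2) ^ n / 2 ≤
      (Set.ncard {u | (∀ i, 0 ≤ u i ∧ u i < (p : ℤ) ^ 2) ∧ u ∈ G p} : ℝ)) :
    (Set.ncard {r : ZMod (∏ p : S, (p : ℕ) ^ 3) × (Fin n → ZMod (∏ p : S, (p : ℕ) ^ 2)) |
      ∀ p : S, red p r ∉ EE G p} : ℝ) ≤
    ((∏ p : S, (p : ℕ) ^ 3 : ℕ) : ℝ) * ((∏ p : S, (p : ℕ) ^ 2 : ℕ) : ℝ) ^ n *
      ∏ p ∈ S, (1 - 1 / (4 * (p : ℝ))) := by
  classical
  have i3 : ∀ p : S, NeZero ((p : ℕ) ^ 3) := fun p => ⟨by
    have := (hS p p.2).pos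
    positivity⟩
  have i2 : ∀ p : S, NeZero ((p : ℕ) ^ 2) := fun p => ⟨by
    have := (hS p p.2).pos
    positivity⟩
  have h1 : Set.ncard {r : ZMod (∏ p : S, (p : ℕ) ^ 3) × (Fin n → ZMod (∏ p : S, (p : ℕ) ^ 2)) |
      ∀ p : S, red p r ∉ EE G p} ≤
      ∏ p : S, (Finset.univ.filter (fun z : ZMod ((p : ℕ) ^ 3) × (Fin n → ZMod ((p : ℕ) ^ 2)) =>
        z ∉ EE G p)).card := by
    rw [← Fintype.card_piFinset, ← Set.ncard_coe_finset]
    apply Set.ncard_le_ncard_of_injOn (fun r p => red p r)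
    · intro r hr
      rw [Finset.mem_coe, Fintype.mem_piFinset]
      intro p
      rw [mem_filter]
      exact ⟨mem_univ _, hr p⟩
    · exact (red_injective hS).injOn
  have h2 : ∀ p : S, (((Finset.univ.filter (fun z : ZMod ((p : ℕ) ^ 3) ×
      (Fin n → ZMod ((p : ℕ) ^ 2)) => z ∉ EE G p)).card : ℕ) : ℝ) ≤
      ((p : ℕ) : ℝ) ^ 3 * (((p : ℕ) : ℝ) ^ 2) ^ n * (1 - 1 / (4 * ((p : ℕ) : ℝ))) := by
    intro p
    have e1 := Finset.card_filter_add_card_filter_not (s := (univ : Finset (ZMod ((p : ℕ) ^ 3) ×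
      (Fin n → ZMod ((p : ℕ) ^ 2))))) (fun z => z ∈ EE G p)
    rw [card_univ, Fintype.card_prod, Fintype.card_fun, ZMod.card, ZMod.card, Fintype.card_fin] at e1
    have e2 : (univ.filter (fun z : ZMod ((p : ℕ) ^ 3) ×
      (Fin n → ZMod ((p : ℕ) ^ 2)) => z ∈ EE G p)).card = (EE G (p : ℕ)).ncard := by
      rw [← Set.ncard_coe_finset]
      congr 1
      ext z
      simp
    have e3 := card_EE G (hS p p.2) (hcnt p p.2)
    rw [e2] at e1
    have e4 : (((EE G (p : ℕ)).ncard : ℕ) : ℝ) + (((Finset.univ.filter (fun z : ZMod ((p : ℕ) ^ 3) ×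
      (Fin n → ZMod ((p : ℕ) ^ 2)) => z ∉ EE G p)).card : ℕ) : ℝ) =
      ((p : ℕ) : ℝ) ^ 3 * (((p : ℕ) : ℝ) ^ 2) ^ n := by
      exact_mod_cast e1
    have e5 : ((p : ℕ) : ℝ) ^ 3 * (((p : ℕ) : ℝ) ^ 2) ^ n * (1 - 1 / (4 * ((p : ℕ) : ℝ))) =
      ((p : ℕ) : ℝ) ^ 3 * (((p : ℕ) : ℝ) ^ 2) ^ n -
      ((p : ℕ) : ℝ) ^ 3 * (((p : ℕ) : ℝ) ^ 2) ^ n * (1 / (4 * ((p : ℕ) : ℝ))) := by ring
    rw [e5]
    linarith
  calc (Set.ncard {r : ZMod (∏ p : S, (p : ℕ) ^ 3) × (Fin n → ZMod (∏ p : S, (p : ℕ) ^ 2)) |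
      ∀ p : S, red p r ∉ EE G p} : ℝ)
      ≤ ((∏ p : S, (Finset.univ.filter (fun z : ZMod ((p : ℕ) ^ 3) ×
        (Fin n → ZMod ((p : ℕ) ^ 2)) => z ∉ EE G p)).card : ℕ) : ℝ) := by exact_mod_cast h1
    _ = ∏ p : S, (((Finset.univ.filter (fun z : ZMod ((p : ℕ) ^ 3) ×
        (Fin n → ZMod ((p : ℕ) ^ 2)) => z ∉ EE G p)).card : ℕ) : ℝ) := by rw [Nat.cast_prod]
    _ ≤ ∏ p : S, (((p : ℕ) : ℝ) ^ 3 * (((p : ℕ) : ℝ) ^ 2) ^ n * (1 - 1 / (4 * ((p : ℕ) : ℝ)))) :=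
        prod_le_prod (fun p _ => Nat.cast_nonneg _) fun p _ => h2 p
    _ = _ := by
        rw [prod_mul_distrib, prod_mul_distrib, Finset.prod_pow _ n]
        push_cast
        rw [Finset.prod_coe_sort S (fun p : ℕ => 1 - 1 / (4 * (p : ℝ)))]

/-! ## Divergence -/

theorem exists_prod_lt (p₀ : ℕ) (ε : ℝ) (hε : 0 < ε) : ∃ S : Finset ℕ,
    (∀ p ∈ S, p.Prime) ∧ (∀ p ∈ S, p₀ ≤ p) ∧ ∏ p ∈ S, (1 - 1 / (4 * (p : ℝ))) < ε := by
  classical
  by_contra hcon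
  push Not at hcon
  apply not_summable_one_div_on_primes
  have hbound : ∀ T : Finset ℕ, (∀ p ∈ T, p.Prime) → (∀ p ∈ T, p₀ ≤ p) →
      ∑ p ∈ T, 1 / (p : ℝ) ≤ 4 * (-Real.log ε) := by
    intro T hT hT'
    have h1 := hcon T hT hT'
    have h2 : ∏ p ∈ T, (1 - 1 / (4 * (p : ℝ))) ≤ Real.exp (- ∑ p ∈ T, 1 / (4 * (p : ℝ))) := by
      rw [← sum_neg_distrib, Real.exp_sum]
      apply Finset.prod_le_prod
      · intro p hp
        have : (1 : ℝ) ≤ p := by exact_mod_cast (hT p hp).one_lt.le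
        have h3 : 1 / (4 * (p : ℝ)) ≤ 1 := by
          rw [div_le_one (by positivity)]
          linarith
        linarith
      · intro p _
        have := Real.add_one_le_exp (-(1 / (4 * (p : ℝ))))
        linarith
    have h3 := h1.trans h2
    have h4 := (Real.log_le_iff_le_exp hε).2 h3
    have h5 : ∑ p ∈ T, 1 / (4 * (p : ℝ)) = (∑ p ∈ T, 1 / (p : ℝ)) / 4 := by
      rw [sum_div]
      apply sum_congr rfl
      intro p _
      ring
    rw [h5] at h4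
    linarith
  apply (summable_nat_add_iff p₀).1
  apply summable_of_sum_le (c := 4 * (-Real.log ε))
  · intro i
    exact Set.indicator_nonneg (fun _ _ => by positivity) _
  · intro u
    have e1 : ∑ x ∈ u, Set.indicator {p : ℕ | p.Prime} (fun n : ℕ => (1 : ℝ) / n) (x + p₀) =
        ∑ p ∈ (u.map (addRightEmbedding p₀)).filter Nat.Prime, 1 / (p : ℝ) := by
      rw [sum_filter, sum_map]
      apply sum_congr rfl
      intro x _
      simp only [Set.indicator_apply, Set.mem_ofPred_eq, addRightEmbedding_apply]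
    rw [e1]
    apply hbound
    · intro p hp
      exact (mem_filter.1 hp).2
    · intro p hp
      obtain ⟨x, _, rfl⟩ := mem_map.1 (mem_filter.1 hp).1
      simp

/-! ## The density theorem -/

theorem good_of_mem {n : ℕ} {p₀ : ℕ} {G : ℕ → Set (Fin n → ℤ)} {Good : ℤ → (Fin n → ℤ) → Prop}
    (hG : ∀ (q : ℤ) (b : Fin n → ℤ) (p : ℕ) (q' : ℤ) (u : Fin n → ℤ), p.Prime → p₀ ≤ p → 0 < q →
      q = p * q' → ¬ (p : ℤ) ∣ q' → (∀ i, (p : ℤ) ^ 2 ∣ b i - q' * u i) → u ∈ G p → Good q b)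
    {p : ℕ} (hp : p.Prime) (hp0 : p₀ ≤ p) {q : ℤ} (hq : 0 < q) {b : Fin n → ℤ}
    (h : (((q : ZMod (p ^ 3)), (fun i => (b i : ZMod (p ^ 2)))) :
      ZMod (p ^ 3) × (Fin n → ZMod (p ^ 2))) ∈ EE G p) : Good q b := by
  obtain ⟨q', u, h1, h2, h3, h4⟩ := h
  simp only at h3 h4
  rw [ZMod.intCast_eq_intCast_iff_dvd_sub] at h3
  obtain ⟨k, hk⟩ := h3
  push_cast at hk
  refine hG q b p (q' - p ^ 2 * k) u hp hp0 hq (by linear_combination -hk) ?_ ?_ h2
  · intro hd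
    apply h1
    have : q' = (q' - p ^ 2 * k) + p * (p * k) := by ring
    rw [this]
    exact dvd_add hd (dvd_mul_right _ _)
  · intro i
    have h5 := h4 i
    rw [ZMod.intCast_eq_intCast_iff_dvd_sub] at h5
    obtain ⟨l, hl⟩ := h5
    push_cast at hl
    exact ⟨k * u i - l, by linear_combination -hl⟩

open Classical in
theorem density {n : ℕ} (p₀ : ℕ) (G : ℕ → Set (Fin n → ℤ))
    (hper : ∀ (p : ℕ) (u v : Fin n → ℤ), (∀ i, (p : ℤ) ^ 2 ∣ u i - v i) → u ∈ G p → v ∈ G p)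
    (hcnt : ∀ p : ℕ, p.Prime → p₀ ≤ p → ((p : ℝ) ^ 2) ^ n / 2 ≤
      (Set.ncard {u | (∀ i, 0 ≤ u i ∧ u i < (p : ℤ) ^ 2) ∧ u ∈ G p} : ℝ))
    (Good : ℤ → (Fin n → ℤ) → Prop)
    (hG : ∀ (q : ℤ) (b : Fin n → ℤ) (p : ℕ) (q' : ℤ) (u : Fin n → ℤ), p.Prime → p₀ ≤ p → 0 < q →
      q = p * q' → ¬ (p : ℤ) ∣ q' → (∀ i, (p : ℤ) ^ 2 ∣ b i - q' * u i) → u ∈ G p → Good q b) :
    Tendsto (fun H : ℕ =>
      ((((Icc (1 : ℤ) H) ×ˢ (Fintype.piFinset fun _ : Fin n => Icc (-(H : ℤ)) H)).filter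
        (fun v => Good v.1 v.2)).card : ℝ) /
      ((((Icc (1 : ℤ) H) ×ˢ (Fintype.piFinset fun _ : Fin n => Icc (-(H : ℤ)) H)).card : ℝ)))
      atTop (nhds 1) := by
  have _ := hper
  -- the cardinality of the box
  have hbox : ∀ H : ℕ, ((((Icc (1 : ℤ) H) ×ˢ
      (Fintype.piFinset fun _ : Fin n => Icc (-(H : ℤ)) H)).card : ℕ) : ℝ) =
      H * (2 * H + 1) ^ n := by
    intro H
    rw [card_product, Fintype.card_piFinset, prod_const, card_univ, Fintype.card_fin,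
      Int.card_Icc, Int.card_Icc]
    have e1 : ((H : ℤ) + 1 - 1).toNat = H := by omega
    have e2 : ((H : ℤ) + 1 - -(H : ℤ)).toNat = 2 * H + 1 := by omega
    rw [e1, e2]
    push_cast
    ring
  -- the bad points
  have hbad : ∀ ε : ℝ, 0 < ε → ∀ᶠ H : ℕ in atTop,
      ((((Icc (1 : ℤ) H) ×ˢ (Fintype.piFinset fun _ : Fin n => Icc (-(H : ℤ)) H)).filter
        (fun v => ¬ Good v.1 v.2)).card : ℝ) /
      ((((Icc (1 : ℤ) H) ×ˢ (Fintype.piFinset fun _ : Fin n => Icc (-(H : ℤ)) H)).card : ℝ)) < ε := by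
    intro ε hε
    obtain ⟨S, hS, hS', hlt⟩ := exists_prod_lt p₀ ε hε
    set M₃ : ℕ := ∏ p : S, (p : ℕ) ^ 3 with hM₃
    set M₂ : ℕ := ∏ p : S, (p : ℕ) ^ 2 with hM₂
    have h₃ : 0 < M₃ := prod_pos fun p _ => pow_pos (hS p p.2).pos _
    have h₂ : 0 < M₂ := prod_pos fun p _ => pow_pos (hS p p.2).pos _
    have : NeZero M₃ := ⟨h₃.ne'⟩
    have : NeZero M₂ := ⟨h₂.ne'⟩
    set R : Finset (ZMod M₃ × (Fin n → ZMod M₂)) :=
      univ.filter (fun r => ∀ p : S, red p r ∉ EE G p) with hR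
    have hRc : (R.card : ℝ) ≤ (M₃ : ℝ) * (M₂ : ℝ) ^ n * ∏ p ∈ S, (1 - 1 / (4 * (p : ℝ))) := by
      have := card_bad_le hS G fun p hp => hcnt p (hS p hp) (hS' p hp)
      refine le_trans (le_of_eq ?_) this
      rw [← Set.ncard_coe_finset]
      congr 2
      rw [hR, Finset.coe_filter]
      simp only [mem_univ, true_and]
      rfl
    -- upper bound for the number of bad points
    have hub : ∀ H : ℕ, ((((Icc (1 : ℤ) H) ×ˢ
        (Fintype.piFinset fun _ : Fin n => Icc (-(H : ℤ)) H)).filter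
        (fun v => ¬ Good v.1 v.2)).card : ℝ) ≤
        R.card * (((H : ℝ) / M₃ + 1) * ((2 * H + 1 : ℝ) / M₂ + 1) ^ n) := by
      intro H
      refine le_trans ?_ (box_count M₃ M₂ h₃ h₂ R H)
      apply Nat.cast_le.2
      apply card_le_card
      intro v hv
      rw [mem_filter] at hv ⊢
      refine ⟨hv.1, ?_⟩
      rw [hR, mem_filter]
      refine ⟨mem_univ _, fun p hp => hv.2 ?_⟩
      have hq : 0 < v.1 := by
        have := (mem_Icc.1 (mem_product.1 hv.1).1).1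
        omega
      apply good_of_mem hG (hS p p.2) (hS' p p.2) hq
      have e : red p (((v.1 : ZMod M₃), (fun i => (v.2 i : ZMod M₂))) :
          ZMod M₃ × (Fin n → ZMod M₂)) = (((v.1 : ZMod ((p : ℕ) ^ 3)),
          (fun i => (v.2 i : ZMod ((p : ℕ) ^ 2))))) := by
        simp only [red, map_intCast]
      rw [← e]
      exact hp
    -- the limit
    have hlim : Tendsto (fun H : ℕ => (R.card * (((H : ℝ) / M₃ + 1) *
        ((2 * H + 1 : ℝ) / M₂ + 1) ^ n)) / (H * (2 * H + 1 : ℝ) ^ n)) atTop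
        (nhds (R.card / (M₃ * (M₂ : ℝ) ^ n))) := by
      have t1 : Tendsto (fun H : ℕ => (1 : ℝ) / M₃ + 1 / (H : ℝ)) atTop (nhds (1 / M₃ + 0)) :=
        tendsto_const_nhds.add tendsto_one_div_atTop_nhds_zero_nat
      have t2 : Tendsto (fun H : ℕ => (1 : ℝ) / (2 * H + 1 : ℝ)) atTop (nhds 0) := by
        have := (tendsto_one_div_atTop_nhds_zero_nat (𝕜 := ℝ)).comp
          (tendsto_atTop_mono (f := fun n : ℕ => n) (g := fun n : ℕ => 2 * n + 1)
            (fun n => by omega) tendsto_id)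
        refine this.congr fun H => ?_
        simp
      have t3 : Tendsto (fun H : ℕ => ((1 : ℝ) / M₂ + 1 / (2 * H + 1 : ℝ)) ^ n) atTop
          (nhds ((1 / M₂ + 0) ^ n)) := (tendsto_const_nhds.add t2).pow n
      have t4 := (t1.mul t3).const_mul (R.card : ℝ)
      have e : (R.card : ℝ) * ((1 / M₃ + 0) * (1 / (M₂ : ℝ) + 0) ^ n) =
          R.card / (M₃ * (M₂ : ℝ) ^ n) := by
        rw [add_zero, add_zero, one_div_pow]
        field_simp
      rw [e] at t4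
      refine t4.congr' ?_
      filter_upwards [eventually_gt_atTop 0] with H hH
      have hH' : (0 : ℝ) < H := by exact_mod_cast hH
      have hM3 : (0 : ℝ) < M₃ := by exact_mod_cast h₃
      have hM2 : (0 : ℝ) < M₂ := by exact_mod_cast h₂
      have e1 : (1 : ℝ) / M₃ + 1 / H = ((H : ℝ) / M₃ + 1) / H := by
        field_simp
      have e2 : (1 : ℝ) / M₂ + 1 / (2 * H + 1 : ℝ) = ((2 * H + 1 : ℝ) / M₂ + 1) / (2 * H + 1) := by
        field_simp
      rw [e1, e2, div_pow]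
      field_simp
    have hfin : (R.card : ℝ) / (M₃ * (M₂ : ℝ) ^ n) < ε := by
      have hM3 : (0 : ℝ) < M₃ := by exact_mod_cast h₃
      have hM2 : (0 : ℝ) < M₂ := by exact_mod_cast h₂
      refine lt_of_le_of_lt ?_ hlt
      rw [div_le_iff₀ (by positivity)]
      linarith
    filter_upwards [hlim.eventually_lt_const hfin, eventually_gt_atTop 0] with H h1 hH
    refine lt_of_le_of_lt ?_ h1
    rw [hbox]
    gcongr
    exact hub H
  rw [Metric.tendsto_atTop]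
  intro ε hε
  obtain ⟨N, hN⟩ := eventually_atTop.1 (hbad ε hε)
  refine ⟨N + 1, fun H hH => ?_⟩
  have h1 := hN H (by omega)
  have hH' : (0 : ℝ) < H := by
    have : 0 < H := by omega
    exact_mod_cast this
  have h2 := Finset.card_filter_add_card_filter_not (s := ((Icc (1 : ℤ) H) ×ˢ
      (Fintype.piFinset fun _ : Fin n => Icc (-(H : ℤ)) H))) (fun v => Good v.1 v.2)
  have h3 : ((((Icc (1 : ℤ) H) ×ˢ (Fintype.piFinset fun _ : Fin n => Icc (-(H : ℤ)) H)).filter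
        (fun v => Good v.1 v.2)).card : ℝ) + ((((Icc (1 : ℤ) H) ×ˢ
        (Fintype.piFinset fun _ : Fin n => Icc (-(H : ℤ)) H)).filter
        (fun v => ¬ Good v.1 v.2)).card : ℝ) = (((Icc (1 : ℤ) H) ×ˢ
        (Fintype.piFinset fun _ : Fin n => Icc (-(H : ℤ)) H)).card : ℝ) := by
    exact_mod_cast h2
  have hpos : (0 : ℝ) < (((Icc (1 : ℤ) H) ×ˢ
        (Fintype.piFinset fun _ : Fin n => Icc (-(H : ℤ)) H)).card : ℝ) := by
    rw [hbox]
    positivity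
  rw [Real.dist_eq, abs_sub_comm]
  have h4 : 1 - ((((Icc (1 : ℤ) H) ×ˢ (Fintype.piFinset fun _ : Fin n => Icc (-(H : ℤ)) H)).filter
        (fun v => Good v.1 v.2)).card : ℝ) / (((Icc (1 : ℤ) H) ×ˢ
        (Fintype.piFinset fun _ : Fin n => Icc (-(H : ℤ)) H)).card : ℝ) =
      ((((Icc (1 : ℤ) H) ×ˢ (Fintype.piFinset fun _ : Fin n => Icc (-(H : ℤ)) H)).filter
        (fun v => ¬ Good v.1 v.2)).card : ℝ) / (((Icc (1 : ℤ) H) ×ˢ
        (Fintype.piFinset fun _ : Fin n => Icc (-(H : ℤ)) H)).card : ℝ) := by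
    rw [eq_div_iff hpos.ne', sub_mul, div_mul_cancel₀ _ hpos.ne']
    linarith
  rw [h4, abs_of_nonneg (by positivity)]
  exact h1

end Pool.Agent.Helper20.ZT
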