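import Mathlib

/-!
# From pairs (denominator, numerators) to rational vectors of bounded height
-/

namespace Pool.Agent.Helper20.ZT

open Finset Filter

/-- The set of rational vectors of height at most `H`: the vectors `b / q` with integers
`1 ≤ q ≤ H` and `-H ≤ b i ≤ H`. -/
noncomputable def ratBox (n H : ℕ) : Finset (Fin n → ℚ) :=
  ((Icc (1 : ℤ) H) ×ˢ (Fintype.piFinset fun _ : Fin n => Icc (-(H : ℤ)) H)).image
    fun v i => (v.2 i : ℚ) / (v.1 : ℚ)

/-- Coprime pairs in the square. -/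
def cop (H : ℕ) : Finset (ℕ × ℕ) :=
  ((Icc 1 H) ×ˢ (Icc 1 H)).filter fun t => Nat.Coprime t.2 t.1

lemma cop_card (H : ℕ) : ((H : ℝ) ^ 2) / 4 ≤ ((cop H).card : ℝ) := by
  classical
  have hsplit : ((cop H).card : ℕ) +
      (((Icc 1 H) ×ˢ (Icc 1 H)).filter fun t : ℕ × ℕ => ¬ Nat.Coprime t.2 t.1).card = H ^ 2 := by
    unfold cop
    rw [card_filter_add_card_filter_not, card_product]
    simp [sq]
  have hbad : ((((Icc 1 H) ×ˢ (Icc 1 H)).filter
      fun t : ℕ × ℕ => ¬ Nat.Coprime t.2 t.1).card : ℝ) ≤ 3 / 4 * (H : ℝ) ^ 2 := by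
    have hsub : ((Icc 1 H) ×ˢ (Icc 1 H)).filter (fun t : ℕ × ℕ => ¬ Nat.Coprime t.2 t.1) ⊆
        (Icc 2 H).biUnion fun d => ((Icc 1 (H / d)) ×ˢ (Icc 1 (H / d))).image
          fun s : ℕ × ℕ => (d * s.1, d * s.2) := by
      intro t ht
      simp only [mem_filter, mem_product, mem_Icc] at ht
      obtain ⟨⟨⟨h1, h2⟩, h3, h4⟩, h5⟩ := ht
      rw [mem_biUnion]
      have hd0 : 0 < Nat.gcd t.2 t.1 := Nat.gcd_pos_of_pos_left _ (by omega)
      have hd1 : Nat.gcd t.2 t.1 ≠ 1 := h5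
      have hle : Nat.gcd t.2 t.1 ≤ t.1 := Nat.le_of_dvd (by omega) (Nat.gcd_dvd_right _ _)
      refine ⟨Nat.gcd t.2 t.1, by rw [mem_Icc]; omega, ?_⟩
      rw [mem_image]
      refine ⟨(t.1 / Nat.gcd t.2 t.1, t.2 / Nat.gcd t.2 t.1), ?_, ?_⟩
      · rw [mem_product, mem_Icc, mem_Icc]
        refine ⟨⟨?_, Nat.div_le_div_right h2⟩, ?_, Nat.div_le_div_right h4⟩
        · exact Nat.div_pos hle hd0
        · exact Nat.div_pos (Nat.le_of_dvd (by omega) (Nat.gcd_dvd_left _ _)) hd0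
      · refine Prod.ext ?_ ?_
        · exact Nat.mul_div_cancel' (Nat.gcd_dvd_right _ _)
        · exact Nat.mul_div_cancel' (Nat.gcd_dvd_left _ _)
    have h1 : (((Icc 1 H) ×ˢ (Icc 1 H)).filter
        (fun t : ℕ × ℕ => ¬ Nat.Coprime t.2 t.1)).card ≤ ∑ d ∈ Icc 2 H, (H / d) ^ 2 := by
      refine (card_le_card hsub).trans (card_biUnion_le.trans ?_)
      refine sum_le_sum fun d _ => ?_
      refine card_image_le.trans ?_
      rw [card_product]
      simp [sq]
    have h2 : ((∑ d ∈ Icc 2 H, (H / d) ^ 2 : ℕ) : ℝ) ≤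
        (H : ℝ) ^ 2 * ∑ d ∈ Icc 2 H, (((d : ℕ) : ℝ) ^ 2)⁻¹ := by
      push_cast
      rw [mul_sum]
      refine sum_le_sum fun d hd => ?_
      have h3 : ((H / d : ℕ) : ℝ) ≤ (H : ℝ) / d := Nat.cast_div_le
      have h4 : (0 : ℝ) ≤ ((H / d : ℕ) : ℝ) := Nat.cast_nonneg _
      calc ((H / d : ℕ) : ℝ) ^ 2 ≤ ((H : ℝ) / d) ^ 2 := pow_le_pow_left₀ h4 h3 2
        _ = (H : ℝ) ^ 2 * ((d : ℝ) ^ 2)⁻¹ := by rw [div_pow, div_eq_mul_inv]
    have h5 : ∑ d ∈ Icc 2 H, (((d : ℕ) : ℝ) ^ 2)⁻¹ ≤ 3 / 4 := by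
      rcases Nat.lt_or_ge H 2 with hH | hH
      · rw [Icc_eq_empty (by omega)]
        norm_num
      · have h6 : Icc 2 H = insert 2 (Ioc 2 H) := by
          ext x
          simp only [mem_insert, mem_Icc, mem_Ioc]
          omega
        rw [h6, sum_insert (by simp)]
        have h7 := sum_Ioc_inv_sq_le_sub (α := ℝ) (k := 2) (n := H) (by norm_num) hH
        have h8 : (0 : ℝ) ≤ ((H : ℕ) : ℝ)⁻¹ := by positivity
        push_cast at h7 ⊢
        norm_num at h7 ⊢
        linarith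
    have h9 : (0 : ℝ) ≤ (H : ℝ) ^ 2 := by positivity
    have h10 : ((((Icc 1 H) ×ˢ (Icc 1 H)).filter
      fun t : ℕ × ℕ => ¬ Nat.Coprime t.2 t.1).card : ℝ) ≤
        ((∑ d ∈ Icc 2 H, (H / d) ^ 2 : ℕ) : ℝ) := by exact_mod_cast h1
    calc _ ≤ _ := h10
      _ ≤ _ := h2
      _ ≤ (H : ℝ) ^ 2 * (3 / 4) := mul_le_mul_of_nonneg_left h5 h9
      _ = _ := by ring
  have hs : ((cop H).card : ℝ) + ((((Icc 1 H) ×ˢ (Icc 1 H)).filter
      fun t : ℕ × ℕ => ¬ Nat.Coprime t.2 t.1).card : ℝ) = (H : ℝ) ^ 2 := by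
    exact_mod_cast hsplit
  linarith

lemma ratBox_card_ge (m H : ℕ) :
    (cop H).card * (2 * H + 1) ^ m ≤ (ratBox (m + 1) H).card := by
  classical
  have hT : (cop H ×ˢ (Fintype.piFinset fun _ : Fin m => Icc (-(H : ℤ)) H)).card =
      (cop H).card * (2 * H + 1) ^ m := by
    rw [card_product, Fintype.card_piFinset]
    simp only [Int.card_Icc, prod_const, card_univ, Fintype.card_fin]
    congr 2
    omega
  rw [← hT]
  refine card_le_card_of_injOn (fun t : (ℕ × ℕ) × (Fin m → ℤ) => fun i : Fin (m + 1) =>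
    (((Fin.cons (t.1.2 : ℤ) t.2 : Fin (m + 1) → ℤ) i : ℤ) : ℚ) / ((t.1.1 : ℤ) : ℚ)) ?_ ?_
  · intro t ht
    rw [mem_coe, mem_product] at ht
    obtain ⟨h1, h2⟩ := ht
    simp only [cop, mem_filter, mem_product, mem_Icc] at h1
    rw [Fintype.mem_piFinset] at h2
    rw [mem_coe, ratBox, mem_image]
    refine ⟨((t.1.1 : ℤ), Fin.cons (t.1.2 : ℤ) t.2), ?_, rfl⟩
    rw [mem_product, mem_Icc, Fintype.mem_piFinset]
    refine ⟨⟨by push_cast; omega, by push_cast; omega⟩, ?_⟩
    intro i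
    refine Fin.cases ?_ (fun j => ?_) i
    · simp only [Fin.cons_zero, mem_Icc]
      omega
    · simp only [Fin.cons_succ]
      exact h2 j
  · intro t ht s hs hts
    rw [mem_coe, mem_product] at ht hs
    obtain ⟨ht1, ht2⟩ := ht
    obtain ⟨hs1, hs2⟩ := hs
    simp only [cop, mem_filter, mem_product, mem_Icc] at ht1 hs1
    have h0 := congrFun hts 0
    simp only [Fin.cons_zero] at h0
    have h1 := Rat.div_int_inj (a := (t.1.2 : ℤ)) (b := (t.1.1 : ℤ)) (c := (s.1.2 : ℤ))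
      (d := (s.1.1 : ℤ)) (by omega) (by omega) (by simpa using ht1.2) (by simpa using hs1.2) h0
    have h2 : t.1.2 = s.1.2 := by exact_mod_cast h1.1
    have h3 : t.1.1 = s.1.1 := by exact_mod_cast h1.2
    have h4 : t.2 = s.2 := by
      funext j
      have hj := congrFun hts j.succ
      simp only [Fin.cons_succ] at hj
      rw [h3] at hj
      have h5 : (((s.1.1 : ℤ) : ℚ)) ≠ 0 := by
        have : s.1.1 ≠ 0 := by omega
        exact_mod_cast this
      have h6 := (div_left_inj' h5).mp hj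
      exact_mod_cast h6
    exact Prod.ext (Prod.ext h3 h2) h4

open Classical in
/-- If a property holds for `100%` of the pairs (denominator, numerators), then it holds for
`100%` of the rational vectors, ordered by height. -/
theorem to_height {n : ℕ} (hn : 0 < n) (Good : (Fin n → ℚ) → Prop)
    (h : Tendsto (fun H : ℕ => ((((Icc (1 : ℤ) H) ×ˢ
        (Fintype.piFinset fun _ : Fin n => Icc (-(H : ℤ)) H)).filter
          (fun v => Good fun i => (v.2 i : ℚ) / (v.1 : ℚ))).card : ℝ) /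
        ((((Icc (1 : ℤ) H) ×ˢ (Fintype.piFinset fun _ : Fin n => Icc (-(H : ℤ)) H)).card : ℝ)))
        atTop (nhds 1)) :
    Tendsto (fun H : ℕ => (((ratBox n H).filter Good).card : ℝ) / ((ratBox n H).card : ℝ))
      atTop (nhds 1) := by
  obtain ⟨m, rfl⟩ : ∃ m, n = m + 1 := ⟨n - 1, by omega⟩
  set B : ℕ → Finset (ℤ × (Fin (m + 1) → ℤ)) := fun H =>
    (Icc (1 : ℤ) H) ×ˢ (Fintype.piFinset fun _ : Fin (m + 1) => Icc (-(H : ℤ)) H) with hB
  set f : ℤ × (Fin (m + 1) → ℤ) → (Fin (m + 1) → ℚ) := fun v i => (v.2 i : ℚ) / (v.1 : ℚ) with hf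
  have hcardB : ∀ H : ℕ, ((B H).card : ℝ) = H * (2 * H + 1) ^ (m + 1) := by
    intro H
    have : (B H).card = H * (2 * H + 1) ^ (m + 1) := by
      rw [hB]
      simp only [card_product, Fintype.card_piFinset, Int.card_Icc, prod_const, card_univ,
        Fintype.card_fin]
      congr 2
      · omega
      · omega
    rw [this]
    push_cast
    ring
  have hR : ∀ H : ℕ, 1 ≤ H → ((B H).card : ℝ) ≤ 12 * ((ratBox (m + 1) H).card : ℝ) := by
    intro H hH
    have h1 : ((cop H).card : ℝ) * (2 * H + 1) ^ m ≤ ((ratBox (m + 1) H).card : ℝ) := by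
      exact_mod_cast ratBox_card_ge m H
    have h2 := cop_card H
    have h3 : (0 : ℝ) ≤ (2 * H + 1) ^ m := by positivity
    have hH' : (1 : ℝ) ≤ H := by exact_mod_cast hH
    rw [hcardB]
    have h4 : (H : ℝ) ^ 2 / 4 * (2 * H + 1) ^ m ≤ ((cop H).card : ℝ) * (2 * H + 1) ^ m :=
      mul_le_mul_of_nonneg_right h2 h3
    have h5 : (H : ℝ) * (2 * H + 1) ^ (m + 1) ≤ 12 * ((H : ℝ) ^ 2 / 4 * (2 * H + 1) ^ m) := by
      have h6 : (H : ℝ) * (2 * H + 1) ≤ 3 * (H : ℝ) ^ 2 := by nlinarith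
      have h7 := mul_le_mul_of_nonneg_right h6 h3
      rw [pow_succ]
      nlinarith
    linarith
  have hRpos : ∀ H : ℕ, 1 ≤ H → (0 : ℝ) < ((ratBox (m + 1) H).card : ℝ) := by
    intro H hH
    have h1 := hR H hH
    rw [hcardB] at h1
    have hH' : (1 : ℝ) ≤ H := by exact_mod_cast hH
    have h2 : (0 : ℝ) < H * (2 * H + 1) ^ (m + 1) := by positivity
    linarith
  have hbadle : ∀ H : ℕ, ((ratBox (m + 1) H).filter fun x => ¬ Good x).card ≤
      ((B H).filter fun v => ¬ Good (f v)).card := by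
    intro H
    have hsub : ((ratBox (m + 1) H).filter fun x => ¬ Good x) ⊆
        ((B H).filter fun v => ¬ Good (f v)).image f := by
      intro x hx
      rw [mem_filter, ratBox, mem_image] at hx
      obtain ⟨⟨v, hv, rfl⟩, h2⟩ := hx
      rw [mem_image]
      exact ⟨v, mem_filter.mpr ⟨hv, h2⟩, rfl⟩
    exact (card_le_card hsub).trans card_image_le
  have hsplitB : ∀ H : ℕ, (((B H).filter fun v => Good (f v)).card : ℝ) +
      (((B H).filter fun v => ¬ Good (f v)).card : ℝ) = ((B H).card : ℝ) := by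
    intro H
    exact_mod_cast card_filter_add_card_filter_not (s := B H) (fun v => Good (f v))
  have hsplitR : ∀ H : ℕ, (((ratBox (m + 1) H).filter Good).card : ℝ) +
      (((ratBox (m + 1) H).filter fun x => ¬ Good x).card : ℝ) =
        ((ratBox (m + 1) H).card : ℝ) := by
    intro H
    exact_mod_cast card_filter_add_card_filter_not (s := ratBox (m + 1) H) Good
  have hlow : ∀ H : ℕ, 1 ≤ H →
      1 - 12 * (1 - (((B H).filter fun v => Good (f v)).card : ℝ) / ((B H).card : ℝ)) ≤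
        (((ratBox (m + 1) H).filter Good).card : ℝ) / ((ratBox (m + 1) H).card : ℝ) := by
    intro H hH
    have hRp := hRpos H hH
    have hBR := hR H hH
    have hBp : (0 : ℝ) < ((B H).card : ℝ) := by
      rw [hcardB]
      have hH' : (1 : ℝ) ≤ H := by exact_mod_cast hH
      positivity
    have h1 : 1 - (((B H).filter fun v => Good (f v)).card : ℝ) / ((B H).card : ℝ) =
        (((B H).filter fun v => ¬ Good (f v)).card : ℝ) / ((B H).card : ℝ) := by
      rw [← hsplitB H] at hBp ⊢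
      field_simp
      ring
    have h2 : (((ratBox (m + 1) H).filter Good).card : ℝ) / ((ratBox (m + 1) H).card : ℝ) =
        1 - (((ratBox (m + 1) H).filter fun x => ¬ Good x).card : ℝ) /
          ((ratBox (m + 1) H).card : ℝ) := by
      rw [← hsplitR H] at hRp ⊢
      field_simp
      ring
    rw [h1, h2]
    have h3 : (((ratBox (m + 1) H).filter fun x => ¬ Good x).card : ℝ) ≤
        (((B H).filter fun v => ¬ Good (f v)).card : ℝ) := by exact_mod_cast hbadle H
    have h4 : (((ratBox (m + 1) H).filter fun x => ¬ Good x).card : ℝ) /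
          ((ratBox (m + 1) H).card : ℝ) ≤
        12 * ((((B H).filter fun v => ¬ Good (f v)).card : ℝ) / ((B H).card : ℝ)) := by
      rw [← mul_div_assoc, div_le_div_iff₀ hRp hBp]
      have h5 : (0 : ℝ) ≤ (((B H).filter fun v => ¬ Good (f v)).card : ℝ) := Nat.cast_nonneg _
      calc (((ratBox (m + 1) H).filter fun x => ¬ Good x).card : ℝ) * ((B H).card : ℝ)
          ≤ (((B H).filter fun v => ¬ Good (f v)).card : ℝ) *
            (12 * ((ratBox (m + 1) H).card : ℝ)) :=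
          mul_le_mul h3 hBR hBp.le h5
        _ = _ := by ring
    linarith
  have hup : ∀ H : ℕ, (((ratBox (m + 1) H).filter Good).card : ℝ) /
      ((ratBox (m + 1) H).card : ℝ) ≤ 1 := by
    intro H
    refine div_le_one_of_le₀ ?_ (Nat.cast_nonneg _)
    exact_mod_cast card_filter_le _ _
  have hlim : Tendsto (fun H : ℕ =>
      1 - 12 * (1 - (((B H).filter fun v => Good (f v)).card : ℝ) / ((B H).card : ℝ)))
      atTop (nhds 1) := by
    have h1 : Tendsto (fun H : ℕ =>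
        1 - 12 * (1 - (((B H).filter fun v => Good (f v)).card : ℝ) / ((B H).card : ℝ)))
        atTop (nhds (1 - 12 * (1 - 1))) :=
      ((tendsto_const_nhds (x := (1 : ℝ))).sub
        (((tendsto_const_nhds (x := (1 : ℝ))).sub h).const_mul 12))
    have h2 : (1 - 12 * (1 - 1) : ℝ) = 1 := by norm_num
    rw [h2] at h1
    exact h1
  refine tendsto_of_tendsto_of_tendsto_of_le_of_le' hlim tendsto_const_nhds ?_ ?_
  · filter_upwards [eventually_ge_atTop 1] with H hH using hlow H hH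
  · exact Eventually.of_forall hup

end Pool.Agent.Helper20.ZT
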